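import Pool.Agent.LPR.Stmts

/-!
# Squad LPR, row BAT: a partition of the unit interval at scale m
-/

set_option autoImplicit false

open Set Topology
open scoped BigOperators

namespace Pool.Agent.LPR.H6

open Pool.Agent.LSG Pool.Agent.LPR

noncomputable section

/-- the clamped coordinate -/
def cl (m : ℕ) (t : ℝ) : ℝ := max 0 (min ((2 : ℝ) ^ (m + 4) - 1) (t * 2 ^ (m + 4) - 1 / 2))

theorem cl_cont (m : ℕ) : Continuous (cl m) := by
  unfold cl
  fun_prop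

theorem cl_nonneg (m : ℕ) (t : ℝ) : 0 ≤ cl m t := le_max_left _ _

theorem K_one (m : ℕ) : (1 : ℝ) ≤ 2 ^ (m + 4) := one_le_pow₀ (by norm_num)

theorem cl_le (m : ℕ) (t : ℝ) : cl m t ≤ 2 ^ (m + 4) - 1 :=
  max_le (by linarith [K_one m]) (min_le_left _ _)

theorem cl_near (m : ℕ) (t : ℝ) (h0 : 0 ≤ t) (h1 : t ≤ 1) :
    |cl m t - (t * 2 ^ (m + 4) - 1 / 2)| ≤ 1 / 2 := by
  have hK := K_one m
  have ha : 0 ≤ t * 2 ^ (m + 4) := by positivity
  have hb : t * 2 ^ (m + 4) ≤ 2 ^ (m + 4) := mul_le_of_le_one_left (by linarith) h1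
  unfold cl
  rw [abs_le]
  constructor
  · have : min ((2 : ℝ) ^ (m + 4) - 1) (t * 2 ^ (m + 4) - 1 / 2) ≥ t * 2 ^ (m + 4) - 1 / 2 - 1 / 2 :=
      le_min (by linarith) (by linarith)
    have h2 := le_max_right 0 (min ((2 : ℝ) ^ (m + 4) - 1) (t * 2 ^ (m + 4) - 1 / 2))
    linarith
  · have : max 0 (min ((2 : ℝ) ^ (m + 4) - 1) (t * 2 ^ (m + 4) - 1 / 2)) ≤
        t * 2 ^ (m + 4) - 1 / 2 + 1 / 2 :=
      max_le (by linarith) ((min_le_right _ _).trans (by linarith))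
    linarith

/-- the hat value -/
def hv (m k : ℕ) (t : ℝ) : ℝ := max 0 (1 - |cl m t - k|)

/-- the partition -/
def BB (m k : ℕ) : C(ℝ, ℝ) :=
  if k < 2 ^ (m + 4) then
    ⟨fun t => Real.sqrt (hv m k t), by
      unfold hv
      exact (continuous_const.max (continuous_const.sub ((cl_cont m).sub continuous_const).abs)).sqrt⟩
  else 0

theorem BB_lt (m k : ℕ) (h : k < 2 ^ (m + 4)) (t : ℝ) : BB m k t = Real.sqrt (hv m k t) := by
  unfold BB
  rw [if_pos h]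
  rfl

theorem BB_ge (m k : ℕ) (h : ¬ k < 2 ^ (m + 4)) (t : ℝ) : BB m k t = 0 := by
  unfold BB
  rw [if_neg h]
  rfl

theorem hv_nonneg (m k : ℕ) (t : ℝ) : 0 ≤ hv m k t := le_max_left _ _

theorem hv_le_one (m k : ℕ) (t : ℝ) : hv m k t ≤ 1 :=
  max_le zero_le_one (by linarith [abs_nonneg (cl m t - k)])

theorem BB_ne (m k : ℕ) (t : ℝ) (h : BB m k t ≠ 0) : k < 2 ^ (m + 4) ∧ |cl m t - k| < 1 := by
  by_cases hk : k < 2 ^ (m + 4)
  · refine ⟨hk, ?_⟩
    by_contra hcon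
    apply h
    rw [BB_lt m k hk, hv, max_eq_left (by linarith [not_lt.1 hcon]), Real.sqrt_zero]
  · exact absurd (BB_ge m k hk t) h

theorem bat : BatStmt := by
  refine ⟨BB, ?_, ?_, ?_⟩
  · intro m k t
    by_cases hk : k < 2 ^ (m + 4)
    · rw [BB_lt m k hk]
      exact ⟨Real.sqrt_nonneg _, Real.sqrt_le_one.2 (hv_le_one m k t)⟩
    · rw [BB_ge m k hk]
      exact ⟨le_rfl, zero_le_one⟩
  · intro m k t h0 h1 hne
    obtain ⟨hk, hlt⟩ := BB_ne m k t hne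
    refine ⟨hk, ?_⟩
    have hn := cl_near m t h0 h1
    have hK : (0 : ℝ) < 2 ^ (m + 4) := by positivity
    have e1 : (1 / 2 : ℝ) ^ (m + 3) = 2 / 2 ^ (m + 4) := by
      rw [one_div, inv_pow, pow_succ 2 (m + 3)]
      field_simp
    have e2 : t - sg m k = (t * 2 ^ (m + 4) - 1 / 2 - k) / 2 ^ (m + 4) := by
      unfold sg
      rw [show m + 5 = (m + 4) + 1 from rfl, pow_succ (2 : ℝ) (m + 4)]
      field_simp
      ring
    rw [e1, e2, abs_div, abs_of_pos hK]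
    apply div_lt_div_of_pos_right _ hK
    rw [abs_lt] at hlt ⊢
    rw [abs_le] at hn
    constructor <;> linarith [hlt.1, hlt.2, hn.1, hn.2]
  · intro m t h0 h1
    have hc0 := cl_nonneg m t
    have hc1 := cl_le m t
    have hj1 : ((⌊cl m t⌋₊ : ℕ) : ℝ) ≤ cl m t := Nat.floor_le hc0
    have hj2 : cl m t < (⌊cl m t⌋₊ : ℕ) + 1 := Nat.lt_floor_add_one _
    have hjK : ⌊cl m t⌋₊ < 2 ^ (m + 4) := by
      have : ((⌊cl m t⌋₊ : ℕ) : ℝ) < ((2 ^ (m + 4) : ℕ) : ℝ) := by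
        push_cast
        linarith
      exact_mod_cast this
    refine ⟨⌊cl m t⌋₊, ?_, ?_⟩
    · intro k hk
      obtain ⟨-, hlt⟩ := BB_ne m k t hk
      rw [abs_lt] at hlt
      have a1 : (k : ℝ) < (⌊cl m t⌋₊ : ℕ) + 2 := by linarith [hlt.1]
      have a2 : ((⌊cl m t⌋₊ : ℕ) : ℝ) < k + 1 := by linarith [hlt.2]
      have b1 : k < ⌊cl m t⌋₊ + 2 := by exact_mod_cast a1
      have b2 : ⌊cl m t⌋₊ < k + 1 := by exact_mod_cast a2
      omega
    · rw [BB_lt m _ hjK, Real.sq_sqrt (hv_nonneg _ _ _)]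
      have e1 : hv m ⌊cl m t⌋₊ t = 1 - (cl m t - (⌊cl m t⌋₊ : ℕ)) := by
        unfold hv
        rw [abs_of_nonneg (by linarith), max_eq_right (by linarith)]
      rw [e1]
      by_cases hk : ⌊cl m t⌋₊ + 1 < 2 ^ (m + 4)
      · rw [BB_lt m _ hk, Real.sq_sqrt (hv_nonneg _ _ _)]
        have e2 : hv m (⌊cl m t⌋₊ + 1) t = cl m t - (⌊cl m t⌋₊ : ℕ) := by
          unfold hv
          push_cast
          rw [abs_of_nonpos (by linarith), max_eq_right (by linarith)]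
          ring
        rw [e2]
        ring
      · rw [BB_ge m _ hk]
        have h3 : 2 ^ (m + 4) ≤ ⌊cl m t⌋₊ + 1 := not_lt.1 hk
        have h4 : (2 : ℝ) ^ (m + 4) ≤ (⌊cl m t⌋₊ : ℕ) + 1 := by exact_mod_cast h3
        have h5 : cl m t = (⌊cl m t⌋₊ : ℕ) := by linarith
        rw [← h5]
        ring

end

end Pool.Agent.LPR.H6
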